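import Pool.Agent.H98.AM.Targets

/-!
# Critical almost Mathieu operator: the universal measure (module E3)
-/

open Polynomial
open scoped ComplexConjugate

noncomputable section

namespace Pool.Agent.H70.AM

open Pool.Agent.H98.AM

theorem trigDeg_mono {N M : ℕ} (hNM : N ≤ M) {h : ℝ → ℂ} (hh : TrigDeg N h) : TrigDeg M h := by
  obtain ⟨c, hc⟩ := hh
  refine ⟨fun k => if k ∈ Finset.Icc (-(N : ℤ)) N then c k else 0, fun θ => ?_⟩
  rw [hc θ]
  have hsub : Finset.Icc (-(N : ℤ)) N ⊆ Finset.Icc (-(M : ℤ)) M := by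
    apply Finset.Icc_subset_Icc <;> omega
  rw [← Finset.sum_subset hsub]
  · refine Finset.sum_congr rfl fun k hk => ?_
    dsimp only
    rw [if_pos hk]
  · intro k _ hk
    dsimp only
    rw [if_neg hk, zero_mul]

theorem trigDeg_add {N : ℕ} {f g : ℝ → ℂ} (hf : TrigDeg N f) (hg : TrigDeg N g) :
    TrigDeg N (fun θ => f θ + g θ) := by
  obtain ⟨c, hc⟩ := hf
  obtain ⟨d, hd⟩ := hg
  refine ⟨fun k => c k + d k, fun θ => ?_⟩
  dsimp only
  rw [hc θ, hd θ, ← Finset.sum_add_distrib]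
  exact Finset.sum_congr rfl fun k _ => by ring

theorem trigDeg_mul_const {N : ℕ} {f : ℝ → ℂ} (hf : TrigDeg N f) (a : ℂ) :
    TrigDeg N (fun θ => f θ * a) := by
  obtain ⟨c, hc⟩ := hf
  refine ⟨fun k => c k * a, fun θ => ?_⟩
  dsimp only
  rw [hc θ, Finset.sum_mul]
  exact Finset.sum_congr rfl fun k _ => by ring

theorem continuous_ex : Continuous ex := by
  unfold ex
  fun_prop

theorem trigDeg_continuous {N : ℕ} {g : ℝ → ℝ} (hg : TrigDeg N (fun θ => ((g θ : ℝ) : ℂ))) :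
    Continuous g := by
  obtain ⟨c, hc⟩ := hg
  have h1 : g = fun θ => (∑ k ∈ Finset.Icc (-(N : ℤ)) N, c k * ex (k * θ)).re := by
    funext θ
    rw [← hc θ, Complex.ofReal_re]
  rw [h1]
  refine Complex.continuous_re.comp (continuous_finsetSum _ fun k _ => ?_)
  exact continuous_const.mul (continuous_ex.comp (by fun_prop))

theorem aeval_ofReal_eval (q : ℝ[X]) (e : ℝ) : aeval (e : ℂ) q = ((q.eval e : ℝ) : ℂ) := by
  rw [Polynomial.aeval_def, Polynomial.eval₂_eq_eval_map, ← Polynomial.eval₂_eq_eval_map]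
  exact (Polynomial.hom_eval₂ q (RingHom.id ℝ) Complex.ofRealHom e).symm

theorem e3 (hA6 : T_A6) (hC7 : T_C7) (hE2 : T_E2) : T_E3 := by
  intro p s hcop hs
  have hs0 : (0 : ℝ) < s := by exact_mod_cast (by omega : 0 < s)
  have htd : ∀ e : ℝ, TrigDeg s (fun θ => ((hw p s θ e : ℝ) : ℂ)) := by
    intro e
    have h0 := trigDeg_mono (show (s - 1) / 2 ≤ s by omega) (hA6 (p / s) e 1 (s - 1))
    have h1 := trigDeg_mono (show (s - 1) / 2 ≤ s by omega) (hA6 (p / s) e 0 (s - 1))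
    have h2 := trigDeg_mul_const (trigDeg_add h0 h1)
      (((Dl p s).derivative.eval e : ℝ) : ℂ)⁻¹
    convert h2 using 2 with θ
    unfold hw P0 P1
    rw [aeval_ofReal_eval, aeval_ofReal_eval]
    push_cast
    rw [div_eq_mul_inv]
  have hcont : ∀ e, Continuous (fun θ => hw p s θ e) := fun e => trigDeg_continuous (htd e)
  have hmax : ∀ e, ∃ x ∈ Set.Icc (-(1 / s : ℝ)) (1 / s),
      ∀ θ ∈ Set.Icc (-(1 / s : ℝ)) (1 / s), hw p s θ e ≤ hw p s x e := by
    intro e
    have hne : (Set.Icc (-(1 / s : ℝ)) (1 / s)).Nonempty := by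
      refine ⟨0, ?_, ?_⟩
      · have : (0 : ℝ) ≤ 1 / s := by positivity
        linarith
      · positivity
    obtain ⟨x, hx, hm⟩ := isCompact_Icc.exists_isMaxOn hne (hcont e).continuousOn
    exact ⟨x, hx, fun θ hθ => hm hθ⟩
  choose x hx hxm using hmax
  have hpos : ∀ θ, ∀ e ∈ rts (Dl p s), 0 ≤ hw p s θ e := by
    intro θ e he
    obtain ⟨h0, h1⟩ := (hC7 p s hcop hs θ).1 e he
    unfold hw
    rw [add_div]
    exact add_nonneg h0 h1
  refine ⟨fun e => if e ∈ rts (Dl p s) then hw p s (x e) e else 0, ?_, ?_, ?_⟩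
  · intro e
    dsimp only
    split_ifs with he
    · exact hpos _ _ he
    · exact le_rfl
  · intro θ hθ e he
    dsimp only
    rw [if_pos he]
    exact hxm e θ (abs_le.1 hθ)
  · have h := hE2 s {e // e ∈ rts (Dl p s)} (fun e θ => hw p s θ e.1) (by omega)
      (fun e => htd e.1) (fun e θ => hpos θ e.1 e.2)
      (fun θ => by
        rw [Finset.sum_coe_sort (rts (Dl p s)) (fun e => hw p s θ e)]
        exact ((hC7 p s hcop hs θ).2.1).le)
      (fun e => x e.1) (fun e => abs_le.2 (hx e.1))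
    rw [Finset.sum_coe_sort (rts (Dl p s)) (fun e => hw p s (x e) e)] at h
    refine le_trans (le_of_eq ?_) h
    refine Finset.sum_congr rfl fun e he => ?_
    dsimp only
    rw [if_pos he]

end Pool.Agent.H70.AM
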