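import Pool.Agent.H98.AM.Targets

/-!
# Critical almost Mathieu operator: few eigenvalues near heavy roots (module I2)
-/

open Polynomial
open scoped ComplexConjugate

noncomputable section

namespace Pool.Agent.H70.AM

open Pool.Agent.H98.AM

theorem eval_of_mem_rts {D : ℝ[X]} {e : ℝ} (h : e ∈ rts D) : D.eval e = 0 := by
  unfold rts at h
  rw [Multiset.mem_toFinset] at h
  exact (Polynomial.mem_roots'.1 h).2

theorem i2 (hC5 : T_C5) (hC6 : T_C6) (hD4 : T_D4) (hI1 : T_I1) : T_I2 := by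
  classical
  intro C0 hC0
  obtain ⟨K1, hK1, h1⟩ := hI1 C0 hC0
  refine ⟨K1 + (13 * C0) ^ 2 + 3, by nlinarith [sq_nonneg (13 * C0)], ?_⟩
  intro px x pR R hcx hcR hKx hR hdist hxR
  have hx3 : (3 : ℝ) ≤ x := by nlinarith [sq_nonneg (13 * C0)]
  have hx3' : 3 ≤ x := by exact_mod_cast hx3
  have hx0 : (0 : ℝ) < x := by linarith
  have hx1 : (1 : ℝ) ≤ x := by linarith
  have hxC : (13 * C0) ^ 2 ≤ x := by linarith
  have hR0 : (0 : ℝ) ≤ R := Nat.cast_nonneg R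
  set ρ : ℝ := (x : ℝ) ^ (-(5 / 3) : ℝ) with hρ
  have hρ0 : 0 < ρ := Real.rpow_pos_of_pos hx0 _
  have hdisc := hC5 px x hcx hx3'
  obtain ⟨hcard, hb4, hsum, hompos⟩ := hC6 px x hcx hx3'
  -- heavy roots
  set Hv : Finset ℝ := (rts (Dl px x)).filter
    (fun e => (x : ℝ) ^ (-(1 / 4) : ℝ) ≤ x * om (Dl px x) e) with hHv
  have hHvcard : (Hv.card : ℝ) ≤ (x : ℝ) ^ (1 / 4 : ℝ) := by
    have ha : (Hv.card : ℝ) * (x : ℝ) ^ (-(1 / 4) : ℝ) ≤ ∑ e ∈ Hv, x * om (Dl px x) e := by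
      rw [← nsmul_eq_mul]
      exact Finset.card_nsmul_le_sum Hv _ _ (fun e he => (Finset.mem_filter.1 he).2)
    have hb : ∑ e ∈ Hv, x * om (Dl px x) e ≤ 1 := by
      calc ∑ e ∈ Hv, (x : ℝ) * om (Dl px x) e
          ≤ ∑ e ∈ rts (Dl px x), (x : ℝ) * om (Dl px x) e := by
            apply Finset.sum_le_sum_of_subset_of_nonneg (Finset.filter_subset _ _)
            intro e he _
            exact mul_nonneg hx0.le (hompos e he).le
        _ = x * (1 / x) := by rw [← Finset.mul_sum, hsum]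
        _ = 1 := by field_simp
    have hc : (x : ℝ) ^ (-(1 / 4) : ℝ) * (x : ℝ) ^ (1 / 4 : ℝ) = 1 := by
      rw [← Real.rpow_add hx0]; norm_num
    have hp : 0 < (x : ℝ) ^ (1 / 4 : ℝ) := Real.rpow_pos_of_pos hx0 _
    calc (Hv.card : ℝ) = (Hv.card : ℝ) * (x : ℝ) ^ (-(1 / 4) : ℝ) * (x : ℝ) ^ (1 / 4 : ℝ) := by
          rw [mul_assoc, hc, mul_one]
      _ ≤ 1 * (x : ℝ) ^ (1 / 4 : ℝ) := mul_le_mul_of_nonneg_right (ha.trans hb) hp.le
      _ = _ := one_mul _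
  -- the margin
  have hmargin : ∀ e ∈ Hv, ρ + 13 * C0 / (x : ℝ) ^ 2 ≤ 2 * om (Dl px x) e := by
    intro e he
    have hh := (Finset.mem_filter.1 he).2
    have h54 : (x : ℝ) ^ (-(5 / 4) : ℝ) ≤ om (Dl px x) e := by
      have : (x : ℝ) ^ (-(5 / 4) : ℝ) = (x : ℝ) ^ (-(1 / 4) : ℝ) / x := by
        rw [show (-(5 / 4) : ℝ) = -(1 / 4) - 1 by norm_num, Real.rpow_sub_one hx0.ne']
      rw [this, div_le_iff₀ hx0, mul_comm]
      exact hh
    have h53 : ρ ≤ (x : ℝ) ^ (-(5 / 4) : ℝ) :=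
      Real.rpow_le_rpow_of_exponent_le hx1 (by norm_num)
    have h2 : 13 * C0 / (x : ℝ) ^ 2 ≤ (x : ℝ) ^ (-(5 / 4) : ℝ) := by
      have e1 : (x : ℝ) ^ (-(5 / 4) : ℝ) = (x : ℝ) ^ (3 / 4 : ℝ) / (x : ℝ) ^ 2 := by
        rw [← Real.rpow_natCast (x : ℝ) 2, ← Real.rpow_sub hx0]
        norm_num
      rw [e1]
      apply div_le_div_of_nonneg_right _ (by positivity)
      calc 13 * C0 = ((13 * C0) ^ 2) ^ (1 / 2 : ℝ) := by
            rw [← Real.sqrt_eq_rpow, Real.sqrt_sq (by linarith)]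
        _ ≤ (x : ℝ) ^ (1 / 2 : ℝ) := Real.rpow_le_rpow (by positivity) hxC (by norm_num)
        _ ≤ (x : ℝ) ^ (3 / 4 : ℝ) := Real.rpow_le_rpow_of_exponent_le hx1 (by norm_num)
    linarith
  -- count near one heavy root
  have hone : ∀ e ∈ Hv, (((rts (Dl pR R)).filter
      (fun E => e - ρ ≤ E ∧ E ≤ e + ρ)).card : ℝ) ≤ K1 * R / x := by
    intro e he
    apply h1 px x pR R hcx hcR hx3' hR hdist hxR (e - ρ) (e + ρ)
    intro t ht r hr i j hi hj
    have hroot := eval_of_mem_rts (Finset.mem_filter.1 he).1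
    have hm := hmargin e he
    apply (hD4 x (Dl px x) hdisc (by omega) e hroot).2 t r hr i j
    · rw [abs_le]
      constructor
      · linarith [hi.1]
      · linarith [hi.2]
    · rw [abs_le]
      constructor
      · linarith [hj.1]
      · linarith [hj.2]
  -- the covering
  have hsub : ∀ E : {E // E ∈ rts (Dl pR R) ∧ ¬ NoHeavy px x E ρ},
      E.1 ∈ Hv.biUnion (fun e => (rts (Dl pR R)).filter (fun E => e - ρ ≤ E ∧ E ≤ e + ρ)) := by
    rintro ⟨E, hE, hN⟩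
    unfold NoHeavy at hN
    push Not at hN
    obtain ⟨e, he, hh, hd⟩ := hN
    rw [Finset.mem_biUnion]
    refine ⟨e, ?_, ?_⟩
    · rw [hHv, Finset.mem_filter]
      refine ⟨?_, hh⟩
      unfold rts
      rw [Multiset.mem_toFinset]
      exact he
    · rw [Finset.mem_filter]
      refine ⟨hE, ?_, ?_⟩
      · linarith [(abs_le.1 hd).1]
      · linarith [(abs_le.1 hd).2]
  have hcount : (Nat.card {E // E ∈ rts (Dl pR R) ∧ ¬ NoHeavy px x E ρ} : ℝ) ≤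
      ((Hv.biUnion (fun e => (rts (Dl pR R)).filter
        (fun E => e - ρ ≤ E ∧ E ≤ e + ρ))).card : ℝ) := by
    have : Nat.card {E // E ∈ rts (Dl pR R) ∧ ¬ NoHeavy px x E ρ} ≤
        Nat.card (Hv.biUnion (fun e => (rts (Dl pR R)).filter
          (fun E => e - ρ ≤ E ∧ E ≤ e + ρ))) :=
      Nat.card_le_card_of_injective (fun E => ⟨E.1, hsub E⟩)
        (fun a b hab => Subtype.ext (by simpa using hab))
    rw [Nat.card_eq_fintype_card (α := ↥(Hv.biUnion _)), Fintype.card_coe] at this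
    exact_mod_cast this
  calc (Nat.card {E // E ∈ rts (Dl pR R) ∧ ¬ NoHeavy px x E ρ} : ℝ)
      ≤ ((Hv.biUnion (fun e => (rts (Dl pR R)).filter
        (fun E => e - ρ ≤ E ∧ E ≤ e + ρ))).card : ℝ) := hcount
    _ ≤ ((∑ e ∈ Hv, ((rts (Dl pR R)).filter
        (fun E => e - ρ ≤ E ∧ E ≤ e + ρ)).card : ℕ) : ℝ) := by
        exact_mod_cast Finset.card_biUnion_le
    _ = ∑ e ∈ Hv, (((rts (Dl pR R)).filter
        (fun E => e - ρ ≤ E ∧ E ≤ e + ρ)).card : ℝ) := by push_cast; rfl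
    _ ≤ ∑ _e ∈ Hv, K1 * R / x := Finset.sum_le_sum hone
    _ = Hv.card * (K1 * R / x) := by rw [Finset.sum_const, nsmul_eq_mul]
    _ ≤ (x : ℝ) ^ (1 / 4 : ℝ) * (K1 * R / x) :=
        mul_le_mul_of_nonneg_right hHvcard (by positivity)
    _ = K1 * R * (x : ℝ) ^ (-(3 / 4) : ℝ) := by
        have : (x : ℝ) ^ (-(3 / 4) : ℝ) = (x : ℝ) ^ (1 / 4 : ℝ) / x := by
          rw [show (-(3 / 4) : ℝ) = 1 / 4 - 1 by norm_num, Real.rpow_sub_one hx0.ne']
        rw [this]; ring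
    _ ≤ (K1 + (13 * C0) ^ 2 + 3) * R * (x : ℝ) ^ (-(3 / 4) : ℝ) := by
        have hp : 0 ≤ (x : ℝ) ^ (-(3 / 4) : ℝ) := (Real.rpow_pos_of_pos hx0 _).le
        have : K1 ≤ K1 + (13 * C0) ^ 2 + 3 := by nlinarith [sq_nonneg (13 * C0)]
        gcongr

end Pool.Agent.H70.AM
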