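import Pool.Agent.H98.AM.Targets

/-!
# Critical almost Mathieu operator: covering numbers of the spectrum (module O4)
-/

open Polynomial
open scoped ComplexConjugate

noncomputable section

namespace Pool.Agent.H70.AM

open Pool.Agent.H98.AM

theorem norm_amoOp_le (α θ : ℝ) : ‖amoOp 1 α θ‖ ≤ 4 := by
  have h1 : ‖shift (-1)‖ ≤ 1 := LinearMap.mkContinuous_norm_le _ zero_le_one _
  have h2 : ‖shift 1‖ ≤ 1 := LinearMap.mkContinuous_norm_le _ zero_le_one _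
  have h3 : ‖mulOp 1 α θ‖ ≤ 2 * |(1 : ℝ)| :=
    LinearMap.mkContinuous_norm_le _ (by positivity) _
  rw [abs_one, mul_one] at h3
  calc ‖amoOp 1 α θ‖ ≤ ‖shift (-1) + shift 1‖ + ‖mulOp 1 α θ‖ := norm_add_le _ _
    _ ≤ ‖shift (-1)‖ + ‖shift 1‖ + ‖mulOp 1 α θ‖ := by gcongr; exact norm_add_le _ _
    _ ≤ 4 := by linarith

theorem spPlus_le (α E : ℝ) (h : E ∈ SpPlus α 1) : |E| ≤ 4 := by
  obtain ⟨θ, hE⟩ := h
  have h1 := spectrum.norm_le_norm_mul_of_mem hE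
  have h2 : ‖(1 : L2Z →L[ℂ] L2Z)‖ ≤ 1 := ContinuousLinearMap.norm_id_le
  rw [Complex.norm_real, Real.norm_eq_abs] at h1
  calc |E| ≤ ‖amoOp 1 α θ‖ * ‖(1 : L2Z →L[ℂ] L2Z)‖ := h1
    _ ≤ 4 * 1 := mul_le_mul (norm_amoOp_le α θ) h2 (norm_nonneg _) (by norm_num)
    _ = 4 := by norm_num

theorem idx_finite (δ : ℝ) (hδ : 0 < δ) (F : Finset ℝ) (hF : ∀ e ∈ F, |e| ≤ 4) :
    {m : ℤ | (Set.Icc (m * δ) ((m + 1) * δ) ∩ (F : Set ℝ)).Nonempty}.Finite := by
  refine Set.Finite.subset (Set.finite_Icc (⌊-4 / δ - 1⌋) (⌈4 / δ⌉)) ?_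
  rintro m ⟨e, he, heF⟩
  have h4 := abs_le.1 (hF e heF)
  constructor
  · have : -4 / δ - 1 ≤ (m : ℝ) := by
      rw [sub_le_iff_le_add, div_le_iff₀ hδ]
      linarith [he.2, h4.1]
    have := (Int.floor_le (-4 / δ - 1)).trans this
    exact_mod_cast this
  · have : (m : ℝ) ≤ 4 / δ := by
      rw [le_div_iff₀ hδ]
      linarith [he.1, h4.2]
    have := this.trans (Int.le_ceil (4 / δ))
    exact_mod_cast this

theorem card_image_le (δ : ℝ) (hδ : 0 < δ) (F : Finset ℝ) (hF : ∀ e ∈ F, |e| ≤ 4) :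
    (F.image (fun e => ⌊e / δ⌋)).card ≤ Ncov δ (F : Set ℝ) := by
  unfold Ncov
  rw [← Set.ncard_coe_finset]
  apply Set.ncard_le_ncard _ (idx_finite δ hδ F hF)
  intro m hm
  rw [Finset.mem_coe, Finset.mem_image] at hm
  obtain ⟨e, he, rfl⟩ := hm
  refine ⟨e, ⟨?_, ?_⟩, he⟩
  · rw [← le_div_iff₀ hδ]
    exact Int.floor_le _
  · rw [← div_le_iff₀ hδ]
    exact (Int.lt_floor_add_one _).le

theorem eval_of_mem_rts' {D : ℝ[X]} {e : ℝ} (hD : D ≠ 0) : e ∈ rts D ↔ D.eval e = 0 := by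
  unfold rts
  rw [Multiset.mem_toFinset, Polynomial.mem_roots hD, Polynomial.IsRoot]

theorem o4 (hC5 : T_C5) (hC6 : T_C6) (hD3 : T_D3) (hI3 : T_I3) (hO2 : T_O2) (hO3 : T_O3) :
    T_O4 := by
  classical
  intro C0 hC0
  obtain ⟨K2, hK2, h2⟩ := hO2 C0 hC0
  set a : ℝ := K2 * C0 ^ 2 with ha
  have ha0 : 0 ≤ a := by positivity
  refine ⟨61 + 22 * a, by linarith, ?_⟩
  intro α p q δ hcop hq hdist hδq hδ0 hδ1
  refine ⟨?_, fun E hE => spPlus_le α E hE⟩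
  have : NeZero q := ⟨by omega⟩
  have hq0 : (0 : ℝ) < q := by exact_mod_cast (by omega : 0 < q)
  have hdisc := hC5 p q hcop hq
  have hDne : Dl p q ≠ 0 := hdisc.mon.ne_zero
  obtain ⟨hcard, hb4, hsum, hompos⟩ := hC6 p q hcop hq
  obtain ⟨-, hmono, hunion, hIcc, hbU⟩ := hI3 δ hδ0
  set w : ℝ → ℝ := fun e => 11 * om (Dl p q) e + a * δ with hw
  set s : Finset ℤ := (rts (Dl p q)).image (fun e => ⌊e / δ⌋) with hs
  set SB : Finset ℝ := (rts (Dl p q)).filter (fun e => δ < 11 * om (Dl p q) e) with hSB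
  set A1 : Set ℝ := ⋃ m ∈ s, Set.Icc ((m : ℝ) * δ - (1 + a) * δ) (((m : ℝ) + 1) * δ + (1 + a) * δ)
    with hA1
  set A2 : Set ℝ := ⋃ e ∈ SB, Set.Icc (e - w e) (e + w e) with hA2
  have hsub : SpPlus α 1 ⊆ A1 ∪ A2 := by
    intro E hE
    obtain ⟨M, hM, θ, E', f, hf, heq, hEE'⟩ := h2 α p q E hdist hE
    have hD := hO3 p q M θ E' f hcop hq hf heq
    obtain ⟨e, he, hEe⟩ := hD3 q (Dl p q) hdisc (by omega) E' hD
    have hemem : e ∈ rts (Dl p q) := (eval_of_mem_rts' hDne).2 he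
    have hEw : |E - e| ≤ w e := by
      have h3 : |E - e| ≤ |E - E'| + |E' - e| := abs_sub_le _ _ _
      have h4 : K2 * (q : ℝ) ^ (-(3 / 2) : ℝ) ≤ a * δ := by
        rw [ha, mul_assoc]
        exact mul_le_mul_of_nonneg_left hδq (by linarith)
      simp only [hw]
      linarith
    have hEw' := abs_le.1 hEw
    by_cases hB : δ < 11 * om (Dl p q) e
    · right
      rw [hA2, Set.mem_iUnion₂]
      refine ⟨e, Finset.mem_filter.2 ⟨hemem, hB⟩, ?_, ?_⟩ <;> linarith [hEw'.1, hEw'.2]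
    · left
      push Not at hB
      rw [hA1, Set.mem_iUnion₂]
      refine ⟨⌊e / δ⌋, Finset.mem_image_of_mem _ hemem, ?_, ?_⟩
      · have h5 : (⌊e / δ⌋ : ℝ) * δ ≤ e := by
          rw [← le_div_iff₀ hδ0]; exact Int.floor_le _
        simp only [hw] at hEw'
        linarith [hEw'.1]
      · have h5 : e ≤ ((⌊e / δ⌋ : ℝ) + 1) * δ := by
          rw [← div_le_iff₀ hδ0]; exact (Int.lt_floor_add_one _).le
        simp only [hw] at hEw'
        linarith [hEw'.2]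
  have hbd1 : Bornology.IsBounded A1 := by
    rw [hA1]
    exact (Bornology.isBounded_biUnion_finset s).2 (fun m _ => Metric.isBounded_Icc _ _)
  have hbd2 : Bornology.IsBounded A2 := by
    rw [hA2]
    exact (Bornology.isBounded_biUnion_finset SB).2 (fun m _ => Metric.isBounded_Icc _ _)
  have hN1 : (Ncov δ A1 : ℝ) ≤ (6 + 2 * a) * Ncov δ (rts (Dl p q) : Set ℝ) := by
    have h3 : (Ncov δ A1 : ℝ) ≤ ∑ m ∈ s, (Ncov δ (Set.Icc ((m : ℝ) * δ - (1 + a) * δ)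
        (((m : ℝ) + 1) * δ + (1 + a) * δ)) : ℝ) := by
      have := hbU ℤ s (fun m => Set.Icc ((m : ℝ) * δ - (1 + a) * δ)
        (((m : ℝ) + 1) * δ + (1 + a) * δ)) (fun m _ => Metric.isBounded_Icc _ _)
      rw [← Nat.cast_sum]
      exact Nat.cast_le.2 this
    have h4 : ∀ m ∈ s, (Ncov δ (Set.Icc ((m : ℝ) * δ - (1 + a) * δ)
        (((m : ℝ) + 1) * δ + (1 + a) * δ)) : ℝ) ≤ 6 + 2 * a := by
      intro m _
      have h5 := hIcc ((m : ℝ) * δ - (1 + a) * δ) (((m : ℝ) + 1) * δ + (1 + a) * δ)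
        (by nlinarith [mul_nonneg ha0 hδ0.le])
      have h6 : (((m : ℝ) + 1) * δ + (1 + a) * δ - ((m : ℝ) * δ - (1 + a) * δ)) / δ + 3
          = 6 + 2 * a := by
        field_simp
        ring
      rw [h6] at h5
      exact h5
    have h7 : (s.card : ℝ) ≤ Ncov δ (rts (Dl p q) : Set ℝ) := by
      exact_mod_cast card_image_le δ hδ0 (rts (Dl p q)) hb4
    calc (Ncov δ A1 : ℝ) ≤ _ := h3
      _ ≤ ∑ _m ∈ s, (6 + 2 * a) := Finset.sum_le_sum h4
      _ = s.card * (6 + 2 * a) := by rw [Finset.sum_const, nsmul_eq_mul]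
      _ ≤ Ncov δ (rts (Dl p q) : Set ℝ) * (6 + 2 * a) :=
          mul_le_mul_of_nonneg_right h7 (by linarith)
      _ = _ := mul_comm _ _
  have hN2 : (Ncov δ A2 : ℝ) ≤ (55 + 22 * a) * (1 / (q * δ)) := by
    have h3 : (Ncov δ A2 : ℝ) ≤ ∑ e ∈ SB, (Ncov δ (Set.Icc (e - w e) (e + w e)) : ℝ) := by
      have := hbU ℝ SB (fun e => Set.Icc (e - w e) (e + w e)) (fun m _ => Metric.isBounded_Icc _ _)
      rw [← Nat.cast_sum]
      exact Nat.cast_le.2 this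
    have h4 : ∀ e ∈ SB, (Ncov δ (Set.Icc (e - w e) (e + w e)) : ℝ)
        ≤ (55 + 22 * a) / δ * om (Dl p q) e := by
      intro e he
      obtain ⟨he1, he2⟩ := Finset.mem_filter.1 he
      have hpos := hompos e he1
      have hw0 : 0 ≤ w e := by simp only [hw]; positivity
      have h5 := hIcc (e - w e) (e + w e) (by linarith)
      have h6 : (e + w e - (e - w e)) / δ + 3 = 22 * om (Dl p q) e / δ + 2 * a + 3 := by
        simp only [hw]
        field_simp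
        ring
      rw [h6] at h5
      have h7 : 1 ≤ 11 * om (Dl p q) e / δ := by
        rw [le_div_iff₀ hδ0]; linarith
      calc (Ncov δ (Set.Icc (e - w e) (e + w e)) : ℝ)
          ≤ 22 * om (Dl p q) e / δ + 2 * a + 3 := h5
        _ ≤ 22 * om (Dl p q) e / δ + (2 * a + 3) * (11 * om (Dl p q) e / δ) := by
            nlinarith
        _ = _ := by field_simp; ring
    calc (Ncov δ A2 : ℝ) ≤ _ := h3
      _ ≤ ∑ e ∈ SB, (55 + 22 * a) / δ * om (Dl p q) e := Finset.sum_le_sum h4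
      _ = (55 + 22 * a) / δ * ∑ e ∈ SB, om (Dl p q) e := by rw [Finset.mul_sum]
      _ ≤ (55 + 22 * a) / δ * ∑ e ∈ rts (Dl p q), om (Dl p q) e := by
          apply mul_le_mul_of_nonneg_left _ (by positivity)
          exact Finset.sum_le_sum_of_subset_of_nonneg (Finset.filter_subset _ _)
            (fun e he _ => (hompos e he).le)
      _ = (55 + 22 * a) * (1 / (q * δ)) := by
          rw [hsum]
          field_simp
  have hN : (Ncov δ (SpPlus α 1) : ℝ) ≤ Ncov δ A1 + Ncov δ A2 := by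
    exact_mod_cast (hmono _ _ (hbd1.union hbd2) hsub).trans (hunion A1 A2)
  have hp1 : (0 : ℝ) ≤ Ncov δ (rts (Dl p q) : Set ℝ) := Nat.cast_nonneg _
  have hp2 : (0 : ℝ) ≤ 1 / (q * δ) := by positivity
  calc (Ncov δ (SpPlus α 1) : ℝ) ≤ Ncov δ A1 + Ncov δ A2 := hN
    _ ≤ (6 + 2 * a) * Ncov δ (rts (Dl p q) : Set ℝ) + (55 + 22 * a) * (1 / (q * δ)) :=
        add_le_add hN1 hN2
    _ ≤ (61 + 22 * a) * (Ncov δ (rts (Dl p q) : Set ℝ) + 1 / (q * δ)) := by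
        nlinarith [mul_nonneg ha0 hp1, mul_nonneg ha0 hp2]

end Pool.Agent.H70.AM
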